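import Pool.Agent.K6.H62.CM.Stm

set_option autoImplicit false

open Complex Filter Topology

namespace Pool.Agent.K6.H62.CM

open Pool.Agent.K6.H62.PR (cc)

namespace FIN

theorem dv_nonneg {f : ℕ → ℂ} (hf : CMB f) (n : ℕ) : 0 ≤ dv f n := by
  rcases Nat.eq_zero_or_pos n with rfl | hn
  · simp [dv]
  · unfold dv
    refine mul_nonneg (mul_nonneg zero_le_two ArithmeticFunction.vonMangoldt_nonneg) ?_
    have h1 := hf.bd n hn
    have h2 := (abs_le.1 ((Complex.abs_re_le_norm (f n)).trans h1)).1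
    linarith

theorem SS_bar (f : ℕ → ℂ) (n : ℕ) : SS (bar f) n = (starRingEnd ℂ) (SS f n) := by
  unfold SS bar
  rw [map_sum]

end FIN

theorem t_FIN (hDEC : S_DEC) (hHHH : S_HHH) (hEXP : S_EXP) (hLAN : S_LAN) (hSQL : S_SQL)
    (hODE : S_ODE) : S_FIN := by
  intro f hf _ hlim
  have h0 : SS f 0 = 0 := by simp [SS]
  have h0' : SS (bar f) 0 = 0 := by simp [SS]
  -- a bound for the partial sums
  obtain ⟨C, hC⟩ : ∃ C : ℝ, ∀ n : ℕ, 1 ≤ n → ‖SS f n‖ ≤ C / √n := by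
    obtain ⟨C, hC⟩ := hlim.bddAbove_range
    refine ⟨C, fun n hn => ?_⟩
    have h1 : √(n : ℝ) * ‖SS f n‖ ≤ C := hC ⟨n, rfl⟩
    have h2 : 0 < √(n : ℝ) := Real.sqrt_pos.2 (by exact_mod_cast hn)
    rw [le_div_iff₀ h2]
    linarith
  obtain ⟨H, C', hHd, hH0, hHD, hsum, hbd⟩ := hHHH f C hf hC
  have hnn := FIN.dv_nonneg hf
  have hd0 : dv f 0 = 0 := by simp [dv]
  have hd1 : dv f 1 = 0 := by simp [dv]
  have hsum2 := hLAN (dv f) H hnn hd0 hd1 hsum hHd hH0 hHD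
  obtain ⟨hder, c0, hc0, hlow⟩ := hEXP (dv f) H (-(1 / 2)) le_rfl (by norm_num) hnn hd0 hd1 hsum2
    hHd hH0 hHD
  obtain ⟨C2, hC2⟩ := hSQL f hf hsum2
  have hop : IsOpen {s : ℂ | -(1 / 2) < s.re} := isOpen_lt continuous_const Complex.continuous_re
  have hmem : ∀ u : ℝ, 0 < u → -(1 / 2) < (((u - 1 / 2 : ℝ) : ℂ)).re := by
    intro u hu
    rw [Complex.ofReal_re]
    linarith
  obtain ⟨c, hc, hcu⟩ := hODE H (LSeries (cc (dv f))) C2
    (fun u hu => by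
      have h1 := (hHd.differentiableAt (hop.mem_nhds (hmem u hu))).hasDerivAt
      rw [hder _ (hmem u hu)] at h1
      exact h1)
    (fun u hu => by
      have h1 := hlow (u - 1 / 2) (by linarith)
      intro h2
      rw [h2, norm_zero] at h1
      linarith) hC2
  have t1 := hDEC (SS f) h0 hlim
  have t2 := hDEC (SS (bar f)) h0' (by
    refine hlim.congr fun n => ?_
    rw [FIN.SS_bar, RCLike.norm_conj])
  have t3 := ((t1.mul t2).const_mul |C'|)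
  rw [mul_zero, mul_zero] at t3
  have hev : ∀ᶠ u : ℝ in 𝓝[>] 0, c ≤ |C'| * ((u * ‖AA (SS f) ((u - 1 / 2 : ℝ) : ℂ)‖) *
      (u * ‖AA (SS (bar f)) ((u - 1 / 2 : ℝ) : ℂ)‖)) := by
    filter_upwards [Ioc_mem_nhdsGT (show (0 : ℝ) < 1 / 4 by norm_num)] with u hu
    have h1 := hcu u hu.1 hu.2
    have h2 := hbd u hu.1 hu.2
    have h3 : c ≤ u ^ 2 * (C' * ‖AA (SS f) ((u - 1 / 2 : ℝ) : ℂ)‖ *
        ‖AA (SS (bar f)) ((u - 1 / 2 : ℝ) : ℂ)‖) := by
      have h4 := h1.trans h2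
      rw [div_le_iff₀ (pow_pos hu.1 2)] at h4
      linarith
    refine h3.trans ?_
    have h5 : u ^ 2 * (C' * ‖AA (SS f) ((u - 1 / 2 : ℝ) : ℂ)‖ *
        ‖AA (SS (bar f)) ((u - 1 / 2 : ℝ) : ℂ)‖) = C' * ((u * ‖AA (SS f) ((u - 1 / 2 : ℝ) : ℂ)‖) *
      (u * ‖AA (SS (bar f)) ((u - 1 / 2 : ℝ) : ℂ)‖)) := by ring
    rw [h5]
    refine mul_le_mul_of_nonneg_right (le_abs_self C') ?_
    have := hu.1
    positivity
  have := le_of_tendsto_of_tendsto tendsto_const_nhds t3 hev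
  linarith

end Pool.Agent.K6.H62.CM
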