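import Pool.Agent.K6.H62.CM.Stm

/-!
# Piece LGD of call62r (helper89)
-/

set_option autoImplicit false

open Complex Filter Topology

namespace Pool.Agent.K6.H62.CM

namespace LGD

/-- the von Mangoldt function, complex values -/
noncomputable abbrev La : ℕ → ℂ := fun n => (ArithmeticFunction.vonMangoldt n : ℂ)

/-- the Moebius function, complex values -/
noncomputable abbrev Mo : ℕ → ℂ := fun n => (ArithmeticFunction.moebius n : ℂ)

theorem conv {f : ℕ → ℂ} (hf : CMB f) (g h : ℕ → ℂ) :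
    LSeries.convolution (f * g) (f * h) = f * LSeries.convolution g h := by
  ext n
  simp only [Pi.mul_apply, LSeries.convolution_def, Finset.mul_sum]
  refine Finset.sum_congr rfl fun p hp => ?_
  rw [(Nat.mem_divisorsAntidiagonal.mp hp).1.symm, hf.mul]
  ring

theorem conv_La {f : ℕ → ℂ} (hf : CMB f) :
    LSeries.convolution (f * La) f = LSeries.logMul f := by
  have h1 : LSeries.convolution La 1 = fun n : ℕ => Complex.log (n : ℂ) :=
    ArithmeticFunction.convolution_vonMangoldt_const_one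
  have h2 := conv hf La 1
  rw [mul_one, h1] at h2
  rw [h2]
  ext n
  simp [LSeries.logMul, mul_comm]

theorem conv_Mo {f : ℕ → ℂ} (hf : CMB f) :
    LSeries.convolution f (f * Mo) = LSeries.delta := by
  have h1 : LSeries.convolution (1 : ℕ → ℂ) Mo = LSeries.delta := by
    have h := DirichletCharacter.convolution_mul_moebius (1 : DirichletCharacter ℂ 1)
    have h3 : (fun n : ℕ => (1 : DirichletCharacter ℂ 1) n) = (1 : ℕ → ℂ) :=
      DirichletCharacter.modOne_eq_one
    rw [h3, one_mul] at h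
    exact h
  have h2 := conv hf 1 Mo
  rw [mul_one, h1] at h2
  rw [h2]
  exact LSeries.mul_delta hf.one

theorem summ {f : ℕ → ℂ} (hf : CMB f) {s : ℂ} (hs : 0 < s.re) : LSeriesSummable f s := by
  refine LSeriesSummable_of_le_const_mul_rpow (x := 0) hs ⟨1, fun n hn => ?_⟩
  have h := hf.bd n (Nat.one_le_iff_ne_zero.mpr hn)
  rw [one_mul, zero_sub, Real.rpow_neg_one, ← one_div]
  exact h

theorem summ_La {f : ℕ → ℂ} (hf : CMB f) {s : ℂ} (hs : 0 < s.re) :
    LSeriesSummable (f * La) s := by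
  have h1 : LSeriesSummable La (1 + s) :=
    ArithmeticFunction.LSeriesSummable_vonMangoldt (by simpa using hs)
  refine Summable.of_norm_bounded h1.norm (fun n => ?_)
  rw [LSeries.norm_term_eq, LSeries.norm_term_eq]
  split_ifs with hn
  · exact le_rfl
  · have hn1 : 1 ≤ n := Nat.one_le_iff_ne_zero.mpr hn
    have hn0 : (0 : ℝ) < n := by exact_mod_cast hn1
    have h := hf.bd n hn1
    rw [Complex.add_re, Complex.one_re, Real.rpow_add hn0, Real.rpow_one, Pi.mul_apply, norm_mul]
    rw [div_le_div_iff₀ (Real.rpow_pos_of_pos hn0 _) (by positivity)]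
    have h3 : ‖f n‖ * n ≤ 1 := by
      rwa [le_div_iff₀ hn0] at h
    have h4 : 0 ≤ ‖La n‖ * (n : ℝ) ^ s.re := by positivity
    calc ‖f n‖ * ‖La n‖ * ((n : ℝ) * (n : ℝ) ^ s.re)
        = (‖f n‖ * n) * (‖La n‖ * (n : ℝ) ^ s.re) := by ring
      _ ≤ 1 * (‖La n‖ * (n : ℝ) ^ s.re) := mul_le_mul_of_nonneg_right h3 h4
      _ = ‖La n‖ * (n : ℝ) ^ s.re := one_mul _

theorem summ_Mo {f : ℕ → ℂ} (hf : CMB f) {s : ℂ} (hs : 0 < s.re) :
    LSeriesSummable (f * Mo) s := by
  refine Summable.of_norm_bounded (summ hf hs).norm (fun n => ?_)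
  refine LSeries.norm_term_le s ?_
  rw [Pi.mul_apply, norm_mul]
  have h1 : ‖Mo n‖ ≤ 1 := by
    have := ArithmeticFunction.abs_moebius_le_one (n := n)
    show ‖((ArithmeticFunction.moebius n : ℤ) : ℂ)‖ ≤ 1
    rw [Complex.norm_intCast]
    exact_mod_cast this
  exact mul_le_of_le_one_right (norm_nonneg _) h1

theorem absc {f : ℕ → ℂ} (hf : CMB f) {s : ℂ} (hs : 0 < s.re) :
    LSeries.abscissaOfAbsConv f < s.re := by
  have h1 : LSeries.abscissaOfAbsConv f ≤ ((0 : ℝ) : EReal) :=
    LSeries.abscissaOfAbsConv_le_of_forall_lt_LSeriesSummable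
      (fun y hy => summ hf (by simpa using hy))
  exact lt_of_le_of_lt h1 (EReal.coe_lt_coe_iff.mpr hs)

end LGD

open LGD in
theorem t_LGD : S_LGD := by
  intro f hf s hs
  have e : (fun n => f n * (ArithmeticFunction.vonMangoldt n : ℂ)) = f * La := rfl
  rw [e]
  refine ⟨summ hf hs, summ_La hf hs, ?_, ?_⟩
  · rw [← LSeries_convolution' (summ_La hf hs) (summ hf hs), conv_La hf,
      LSeries_deriv (absc hf hs), neg_neg]
  · intro h0
    have h1 := LSeries_convolution' (summ hf hs) (summ_Mo hf hs)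
    rw [conv_Mo hf, h0, zero_mul, LSeries_delta] at h1
    simp at h1

end Pool.Agent.K6.H62.CM
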