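import Pool.Agent.K6.H62.PR.Stm

set_option autoImplicit false

/-!
Statements for MP_768c9c_nt: a completely multiplicative `f` with `|f(n)| ≤ 1/n` and
`∑ f(n) = 0` has `∑_{n ≤ x} f(n) = Ω(x^{-1/2})`.
-/

open Complex Filter Topology

namespace Pool.Agent.K6.H62.CM

open Pool.Agent.K6.H62.PR (cc)

open scoped ArithmeticFunction.vonMangoldt

/-- completely multiplicative with `|f(n)| ≤ 1/n` -/
structure CMB (f : ℕ → ℂ) : Prop where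
  zero : f 0 = 0
  one : f 1 = 1
  mul : ∀ m n, f (m * n) = f m * f n
  bd : ∀ n, 1 ≤ n → ‖f n‖ ≤ 1 / (n : ℝ)

/-- partial sums -/
noncomputable def SS (f : ℕ → ℂ) (n : ℕ) : ℂ := ∑ k ∈ Finset.Icc 1 n, f k

/-- the complex conjugate function -/
noncomputable def bar (f : ℕ → ℂ) (n : ℕ) : ℂ := (starRingEnd ℂ) (f n)

/-- the continuation of the Dirichlet series with partial sums `a` -/
noncomputable def AA (a : ℕ → ℂ) (s : ℂ) : ℂ :=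
  ∑' n : ℕ, a n * ((n : ℂ) ^ (-s) - ((n : ℂ) + 1) ^ (-s))

/-- the nonnegative coefficients `2 Λ(n) (1/n + Re f(n))` -/
noncomputable def dv (f : ℕ → ℂ) (n : ℕ) : ℝ := 2 * ArithmeticFunction.vonMangoldt n * (1 / n + (f n).re)

/-- DIF: difference of powers -/
def S_DIF : Prop :=
  ∀ (n : ℕ) (s : ℂ), 1 ≤ n → -1 ≤ s.re →
    ‖(n : ℂ) ^ (-s) - ((n : ℂ) + 1) ^ (-s)‖ ≤ ‖s‖ * (n : ℝ) ^ (-s.re - 1)

/-- ANA: analyticity of `AA` -/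
def S_ANA : Prop :=
  ∀ (a : ℕ → ℂ) (C : ℝ), a 0 = 0 → (∀ n : ℕ, 1 ≤ n → ‖a n‖ ≤ C / √n) →
    DifferentiableOn ℂ (AA a) {s : ℂ | -(1 / 2) < s.re}

/-- DEC: growth of `AA` at `-1/2` -/
def S_DEC : Prop :=
  ∀ a : ℕ → ℂ, a 0 = 0 → Tendsto (fun n : ℕ => √n * ‖a n‖) atTop (𝓝 0) →
    Tendsto (fun u : ℝ => u * ‖AA a ((u - 1 / 2 : ℝ) : ℂ)‖) (𝓝[>] 0) (𝓝 0)

/-- ABS: Abel summation -/
def S_ABS : Prop :=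
  ∀ (f : ℕ → ℂ) (C : ℝ), CMB f → (∀ n : ℕ, 1 ≤ n → ‖SS f n‖ ≤ C / √n) →
    ∀ s : ℂ, 0 < s.re → LSeries f s = AA (SS f) s

/-- LGD: logarithmic derivative and nonvanishing -/
def S_LGD : Prop :=
  ∀ f : ℕ → ℂ, CMB f → ∀ s : ℂ, 0 < s.re →
    LSeriesSummable f s ∧
    LSeriesSummable (fun n => f n * (ArithmeticFunction.vonMangoldt n : ℂ)) s ∧
    LSeries (fun n => f n * (ArithmeticFunction.vonMangoldt n : ℂ)) s * LSeries f s =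
      - deriv (LSeries f) s ∧
    LSeries f s ≠ 0

/-- ZET: `s ζ(1+s)` is entire -/
def S_ZET : Prop :=
  ∃ Z : ℂ → ℂ, Differentiable ℂ Z ∧
    ∀ s : ℂ, 0 < s.re → Z s = s * LSeries (fun n => if n = 0 then 0 else 1 / (n : ℂ)) s

/-- HHH: the function `ζ(1+s)² F(s) F̄(s)` -/
def S_HHH : Prop :=
  ∀ (f : ℕ → ℂ) (C : ℝ), CMB f → (∀ n : ℕ, 1 ≤ n → ‖SS f n‖ ≤ C / √n) →
    ∃ (H : ℂ → ℂ) (C' : ℝ), DifferentiableOn ℂ H {s : ℂ | -(1 / 2) < s.re} ∧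
      (∀ s : ℂ, 0 < s.re → H s ≠ 0) ∧
      (∀ s : ℂ, 0 < s.re → deriv H s = - LSeries (cc (dv f)) s * H s) ∧
      (∀ σ : ℝ, 0 < σ → LSeriesSummable (cc (dv f)) (σ : ℂ)) ∧
      (∀ u : ℝ, 0 < u → u ≤ 1 / 4 → ‖H ((u - 1 / 2 : ℝ) : ℂ)‖ ≤
        C' * ‖AA (SS f) ((u - 1 / 2 : ℝ) : ℂ)‖ * ‖AA (SS (bar f)) ((u - 1 / 2 : ℝ) : ℂ)‖)

/-- EXP: continuation of the differential equation, and a lower bound -/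
def S_EXP : Prop :=
  ∀ (d : ℕ → ℝ) (H : ℂ → ℂ) (θ : ℝ), -(1 / 2) ≤ θ → θ ≤ 0 → (∀ n, 0 ≤ d n) → d 0 = 0 → d 1 = 0 →
    (∀ σ : ℝ, θ < σ → LSeriesSummable (cc d) (σ : ℂ)) →
    DifferentiableOn ℂ H {s : ℂ | -(1 / 2) < s.re} → (∀ s : ℂ, 0 < s.re → H s ≠ 0) →
    (∀ s : ℂ, 0 < s.re → deriv H s = - LSeries (cc d) s * H s) →
    (∀ s : ℂ, θ < s.re → deriv H s = - LSeries (cc d) s * H s) ∧
      ∃ c : ℝ, 0 < c ∧ ∀ σ : ℝ, θ < σ → c ≤ ‖H (σ : ℂ)‖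

/-- LAN: the Dirichlet series converges up to `-1/2` -/
def S_LAN : Prop :=
  ∀ (d : ℕ → ℝ) (H : ℂ → ℂ), (∀ n, 0 ≤ d n) → d 0 = 0 → d 1 = 0 →
    (∀ σ : ℝ, 0 < σ → LSeriesSummable (cc d) (σ : ℂ)) →
    DifferentiableOn ℂ H {s : ℂ | -(1 / 2) < s.re} → (∀ s : ℂ, 0 < s.re → H s ≠ 0) →
    (∀ s : ℂ, 0 < s.re → deriv H s = - LSeries (cc d) s * H s) →
    ∀ σ : ℝ, -(1 / 2) < σ → LSeriesSummable (cc d) (σ : ℂ)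

/-- SQL: the squares of prime powers give a lower bound -/
def S_SQL : Prop :=
  ∀ f : ℕ → ℂ, CMB f → (∀ σ : ℝ, -(1 / 2) < σ → LSeriesSummable (cc (dv f)) (σ : ℂ)) →
    ∃ C : ℝ, ∀ u : ℝ, 0 < u → u ≤ 1 / 4 →
      2 / u - C ≤ (LSeries (cc (dv f)) ((u - 1 / 2 : ℝ) : ℂ)).re

/-- ODE: a differential inequality -/
def S_ODE : Prop :=
  ∀ (H D : ℂ → ℂ) (C : ℝ),
    (∀ u : ℝ, 0 < u → HasDerivAt H (- D ((u - 1 / 2 : ℝ) : ℂ) * H ((u - 1 / 2 : ℝ) : ℂ)) ((u - 1 / 2 : ℝ) : ℂ)) →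
    (∀ u : ℝ, 0 < u → H ((u - 1 / 2 : ℝ) : ℂ) ≠ 0) →
    (∀ u : ℝ, 0 < u → u ≤ 1 / 4 → 2 / u - C ≤ (D ((u - 1 / 2 : ℝ) : ℂ)).re) →
    ∃ c : ℝ, 0 < c ∧ ∀ u : ℝ, 0 < u → u ≤ 1 / 4 → c / u ^ 2 ≤ ‖H ((u - 1 / 2 : ℝ) : ℂ)‖

/-- FIN: the theorem -/
def S_FIN : Prop :=
  ∀ f : ℕ → ℂ, CMB f → Tendsto (SS f) atTop (𝓝 0) →
    ¬ Tendsto (fun n : ℕ => √n * ‖SS f n‖) atTop (𝓝 0)

end Pool.Agent.K6.H62.CM
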