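import Pool.Agent.K6.H62.CM.Stm

set_option autoImplicit false

/-!
Piece ZET for MP_768c9c_nt: `s ζ(1+s)` is entire.
-/

open Complex Filter Topology

namespace Pool.Agent.K6.H62.CM

namespace ZET

lemma term_eq (s : ℂ) (n : ℕ) :
    LSeries.term (fun n => if n = 0 then 0 else 1 / (n : ℂ)) s n = LSeries.term 1 (1 + s) n := by
  rcases Nat.eq_zero_or_pos n with h | h
  · subst h
    rw [LSeries.term_zero, LSeries.term_zero]
  · have h0 : n ≠ 0 := by omega
    have h1 : (n : ℂ) ≠ 0 := by exact_mod_cast h0
    rw [LSeries.term_of_ne_zero h0, LSeries.term_of_ne_zero h0, Complex.cpow_add _ _ h1,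
      Complex.cpow_one, if_neg h0, Pi.one_apply, div_div]

lemma lser_eq (s : ℂ) :
    LSeries (fun n => if n = 0 then 0 else 1 / (n : ℂ)) s = LSeries 1 (1 + s) := by
  unfold LSeries
  exact tsum_congr fun n => term_eq s n

end ZET

theorem t_ZET : S_ZET := by
  refine ⟨fun s => DirichletCharacter.LFunctionTrivChar₁ 1 (1 + s), ?_, fun s hs => ?_⟩
  · exact (DirichletCharacter.differentiable_LFunctionTrivChar₁ 1).comp
      (differentiable_id.const_add (1 : ℂ))
  · have h0 : (1 : ℂ) + s ≠ 1 := by
      intro h
      have h2 : s = 0 := by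
        have := congrArg (fun z => z - 1) h
        simpa using this
      rw [h2] at hs
      simp at hs
    have h1 : 1 < (1 + s).re := by
      rw [Complex.add_re, Complex.one_re]
      linarith
    rw [ZET.lser_eq, LSeries_one_eq_riemannZeta h1]
    show DirichletCharacter.LFunctionTrivChar₁ 1 (1 + s) = _
    rw [DirichletCharacter.LFunctionTrivChar₁, Function.update_of_ne h0]
    simp only [DirichletCharacter.LFunctionTrivChar, DirichletCharacter.LFunction_modOne_eq]
    ring

end Pool.Agent.K6.H62.CM
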